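import Pool.Agent.H91.RF.TargetsK2
import Pool.Agent.H28.RF.ENT

/-!
# MP_609556_an, modules ENTG, GTR, GSC
-/

open MeasureTheory Set Filter Topology Metric
open Pool.Agent.H29.TF
open Pool.Agent.H91.RD

namespace Pool.Agent.H21.RF

open Pool.Agent.H91.RF

/-- the general entropy inequality, unbounded `h` -/
theorem key2 {N : ℕ} (G h k φ : E N → ℝ) (KS c : ℝ)
    (hG : ∀ y, 0 ≤ G y) (hk0 : ∀ y, 0 < k y) (hGk : ∀ y, G y ≤ Real.exp KS * k y)
    (hh0 : ∀ y, 0 ≤ h y) (hGh : Integrable (fun y => G y * h y))
    (hφi : Integrable (fun y => G y * h y * φ y))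
    (hlog : Integrable (fun y => G y * (h y * Real.log (h y))))
    (hc : 0 < c) (hei : Integrable (fun y => k y * Real.exp (φ y)))
    (hec : ∫ y, k y * Real.exp (φ y) = c) (hn : 0 < ∫ y, G y * h y) :
    Real.log (∫ y, G y * h y) - KS - Real.log c + (∫ y, G y * h y * φ y) / (∫ y, G y * h y) ≤
      (∫ y, G y * (h y * Real.log (h y))) / ∫ y, G y * h y := by
  set n := ∫ y, G y * h y with hndef
  have hpt : ∀ y, G y * h y * φ y - (KS - Real.log n + Real.log c) * (G y * h y) -
      G y * (h y * Real.log (h y)) ≤ n / c * (k y * Real.exp (φ y)) - G y * h y := by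
    intro y
    have hz : 0 ≤ n / c * (k y * Real.exp (φ y)) :=
      mul_nonneg (div_nonneg hn.le hc.le) (mul_nonneg (hk0 y).le (Real.exp_pos _).le)
    rcases (hh0 y).eq_or_lt with h0 | h0
    · rw [← h0]
      simp only [mul_zero, zero_mul, sub_zero]
      exact hz
    · rcases (hG y).eq_or_lt with g0 | g0
      · rw [← g0]
        simp only [mul_zero, zero_mul, sub_zero]
        exact hz
      · have hA : 0 < G y * h y := mul_pos g0 h0
        have hX : 0 < n / c * (k y * Real.exp (φ y)) / (G y * h y) := by
          have := hk0 y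
          positivity
        have h1 := Real.log_le_sub_one_of_pos hX
        have h2 : Real.log (n / c * (k y * Real.exp (φ y)) / (G y * h y)) =
            Real.log n - Real.log c + (Real.log (k y) + φ y) -
              (Real.log (G y) + Real.log (h y)) := by
          rw [Real.log_div (by have := hk0 y; positivity) hA.ne',
            Real.log_mul (by positivity) (by have := hk0 y; positivity),
            Real.log_div hn.ne' hc.ne', Real.log_mul (hk0 y).ne' (Real.exp_pos _).ne',
            Real.log_exp, Real.log_mul g0.ne' h0.ne']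
        have h3 : Real.log (G y) ≤ KS + Real.log (k y) := by
          have := Real.log_le_log g0 (hGk y)
          rwa [Real.log_mul (Real.exp_pos _).ne' (hk0 y).ne', Real.log_exp] at this
        have h4 : φ y - (KS - Real.log n + Real.log c) - Real.log (h y) ≤
            n / c * (k y * Real.exp (φ y)) / (G y * h y) - 1 := by
          rw [h2] at h1
          linarith
        have h5 := mul_le_mul_of_nonneg_left h4 hA.le
        have h6 : G y * h y * (n / c * (k y * Real.exp (φ y)) / (G y * h y) - 1) =
            n / c * (k y * Real.exp (φ y)) - G y * h y := by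
          rw [mul_sub, mul_one, mul_div_cancel₀ _ hA.ne']
        rw [h6] at h5
        linarith
  have hint := integral_mono ((hφi.sub (hGh.const_mul (KS - Real.log n + Real.log c))).sub hlog)
    ((hei.const_mul (n / c)).sub hGh) hpt
  have hL : (∫ y, (fun y => G y * h y * φ y - (KS - Real.log n + Real.log c) * (G y * h y) -
      G y * (h y * Real.log (h y))) y) = (∫ y, G y * h y * φ y) -
        (KS - Real.log n + Real.log c) * n - ∫ y, G y * (h y * Real.log (h y)) := by
    have e1 := integral_sub (hφi.sub (hGh.const_mul (KS - Real.log n + Real.log c))) hlog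
    have e2 := integral_sub hφi (hGh.const_mul (KS - Real.log n + Real.log c))
    have e3 : ∫ y, (KS - Real.log n + Real.log c) * (G y * h y) =
        (KS - Real.log n + Real.log c) * n := by rw [integral_const_mul]
    simp only [Pi.sub_apply] at e1 e2
    rw [e3] at e2
    rw [e2] at e1
    exact e1
  have hR : (∫ y, (fun y => n / c * (k y * Real.exp (φ y)) - G y * h y) y) = 0 := by
    have e1 := integral_sub (hei.const_mul (n / c)) hGh
    rw [integral_const_mul, hec] at e1
    rw [e1, ← hndef, div_mul_cancel₀ _ hc.ne', sub_self]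
  have hint2 : (∫ y, G y * h y * φ y) - (KS - Real.log n + Real.log c) * n -
      ∫ y, G y * (h y * Real.log (h y)) ≤ 0 := by
    rw [← hL, ← hR]
    exact hint
  rw [div_eq_mul_inv, div_eq_mul_inv]
  have hn' := inv_pos.2 hn
  have h7 := mul_le_mul_of_nonneg_right hint2 hn'.le
  rw [zero_mul, sub_mul, sub_mul, mul_assoc (KS - Real.log n + Real.log c), mul_inv_cancel₀ hn.ne']
    at h7
  linarith

theorem entg : T_ENTG := by
  intro N κ S G h x hS hGm hhm hG hh0 hGh hn hlog h2
  have hexpi : ∀ (θ : ℝ) (e : E N), ‖e‖ = 1 →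
      Integrable (fun y => hk S (x - y) * Real.exp (θ * inner ℝ (y - x) e)) := by
    intro θ e he
    have : (fun y => hk S (x - y) * Real.exp (θ * inner ℝ (y - x) e)) =
        fun y => Real.exp (S * θ ^ 2) * hk S ((x + (2 * S * θ) • e) - y) := by
      ext y; exact Pool.Agent.H28.RF.ENT.hk_exp hS θ e he x y
    rw [this]
    exact (integrable_hk_sub hS _).const_mul _
  refine ⟨?_, ?_⟩
  · intro e he
    set m := (∫ y, G y * h y * inner ℝ (y - x) e) / ∫ y, G y * h y with hm'
    set θ := m / (2 * S) with hθ
    have hi1 : Integrable (fun y => G y * h y * (θ * inner ℝ (y - x) e)) := by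
      refine Integrable.mono' ((hGh.add h2).const_mul |θ|)
        ((hGm.mul hhm).mul (by fun_prop)).aestronglyMeasurable
        (Filter.Eventually.of_forall fun y => ?_)
      have h0 : 0 ≤ G y * h y := mul_nonneg (hG y).1 (hh0 y)
      rw [norm_mul, Real.norm_of_nonneg h0, Real.norm_eq_abs, abs_mul]
      have h3 : |inner ℝ (y - x) e| ≤ ‖y - x‖ := by
        have := abs_real_inner_le_norm (y - x) e
        rwa [he, mul_one] at this
      have h4 : ‖y - x‖ ≤ 1 + ‖y - x‖ ^ 2 := by nlinarith [sq_nonneg (‖y - x‖ - 1), norm_nonneg (y - x)]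
      simp only [Pi.add_apply]
      calc G y * h y * (|θ| * |inner ℝ (y - x) e|)
          ≤ G y * h y * (|θ| * (1 + ‖y - x‖ ^ 2)) := by
            refine mul_le_mul_of_nonneg_left ?_ h0
            exact mul_le_mul_of_nonneg_left (h3.trans h4) (abs_nonneg _)
        _ = _ := by ring
    have hc : ∫ y, hk S (x - y) * Real.exp (θ * inner ℝ (y - x) e) = Real.exp (S * θ ^ 2) := by
      have : (fun y => hk S (x - y) * Real.exp (θ * inner ℝ (y - x) e)) =
          fun y => Real.exp (S * θ ^ 2) * hk S ((x + (2 * S * θ) • e) - y) := by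
        ext y; exact Pool.Agent.H28.RF.ENT.hk_exp hS θ e he x y
      rw [this, integral_const_mul, integral_hk_sub hS, mul_one]
    have hk1 := key2 G h (fun y => hk S (x - y))
      (fun y => θ * inner ℝ (y - x) e) (κ * S) (Real.exp (S * θ ^ 2)) (fun y => (hG y).1)
      (fun y => hk_pos hS _) (fun y => (hG y).2) hh0 hGh
      hi1 hlog (Real.exp_pos _) (hexpi θ e he) hc hn
    have hE : (∫ y, G y * h y * (θ * inner ℝ (y - x) e)) / (∫ y, G y * h y) = θ * m := by
      rw [hm', ← mul_div_assoc, ← integral_const_mul]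
      congr 2
      ext y
      ring
    rw [hE, Real.log_exp] at hk1
    have hfin : θ * m - S * θ ^ 2 = m ^ 2 / (4 * S) := by
      rw [hθ]
      field_simp
      ring
    linarith
  · have hexp2 : (fun y => hk S (x - y) * Real.exp (‖y - x‖ ^ 2 / (8 * S))) =
        fun y => (2 : ℝ) ^ ((N : ℝ) / 2) * hk (2 * S) (x - y) := by
      ext y; exact Pool.Agent.H28.RF.ENT.hk_exp2 hS x y
    have hi2 : Integrable (fun y => hk S (x - y) * Real.exp (‖y - x‖ ^ 2 / (8 * S))) := by
      rw [hexp2]
      exact (integrable_hk_sub (by positivity) _).const_mul _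
    have hc : ∫ y, hk S (x - y) * Real.exp (‖y - x‖ ^ 2 / (8 * S)) = (2 : ℝ) ^ ((N : ℝ) / 2) := by
      rw [hexp2, integral_const_mul, integral_hk_sub (by positivity), mul_one]
    have hi1 : Integrable (fun y => G y * h y * (‖y - x‖ ^ 2 / (8 * S))) := by
      have := h2.div_const (8 * S)
      refine this.congr (Filter.Eventually.of_forall fun y => ?_)
      simp only
      ring
    have hk1 := key2 G h (fun y => hk S (x - y))
      (fun y => ‖y - x‖ ^ 2 / (8 * S)) (κ * S) ((2 : ℝ) ^ ((N : ℝ) / 2)) (fun y => (hG y).1)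
      (fun y => hk_pos hS _) (fun y => (hG y).2) hh0 hGh hi1 hlog (by positivity) hi2 hc hn
    have hE : (∫ y, G y * h y * (‖y - x‖ ^ 2 / (8 * S))) / (∫ y, G y * h y) =
        ((∫ y, G y * h y * ‖y - x‖ ^ 2) / ∫ y, G y * h y) / (8 * S) := by
      rw [div_right_comm]
      congr 1
      rw [← integral_div]
      congr 1
      ext y
      ring
    rw [hE, Real.log_rpow (by norm_num)] at hk1
    linarith

theorem gtr (hKINV : T_KINV) : T_GTR := by
  intro N V h β c S t e x hS
  have hg : ∀ y, gk (fun τ y => V (t + τ) (x + y)) 0 0 (0 - S) y = gk V t x (t - S) (x + y) := by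
    intro y
    have := (hKINV N V).1 t x 0 0 (0 - S) y
    rw [this, add_zero, add_zero, zero_sub, ← sub_eq_add_neg]
  have hsub : ∀ F : E N → ℝ, (∫ y, F (x + y)) = ∫ y, F y := fun F =>
    integral_add_left_eq_self F x
  refine ⟨?_, ?_⟩
  · unfold Gn Ex
    simp only [hg, sub_zero]
    rw [← hsub (fun y => gk V t x (t - S) y * h y * Real.log (h y)),
      ← hsub (fun y => gk V t x (t - S) y * h y),
      ← hsub (fun y => gk V t x (t - S) y * h y * inner ℝ (y - x) e)]
    simp only [add_sub_cancel_left]
  · simp only [hg]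
    rw [← hsub (fun y => gk V t x (t - S) y * h y)]

theorem gsc (hKER : T_KER) : T_GSC := by
  intro N K V h β c S t lam e x hV hS hlam hhm hh0 ⟨M, hM⟩ hn
  obtain ⟨hm, hb, -⟩ := hKER N K V hV
  have hlt : t - S < t := by linarith
  have hts : t - (t - S) = S := by ring
  have hGm : Measurable (fun y : E N => gk V t x (t - S) y) :=
    (hm (t - S) t hlt).comp (measurable_const.prodMk measurable_id)
  have hb1 : ∀ y, gk V t x (t - S) y ≤ Real.exp (K * S) * hk S (x - y) := by
    intro y
    have := (hb (t - S) t hlt x y).2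
    rwa [hts] at this
  have hb0 : ∀ y, 0 ≤ gk V t x (t - S) y := by
    intro y
    have := (hb (t - S) t hlt x y).1
    rw [hts] at this
    exact le_trans (mul_nonneg (Real.exp_pos _).le (hk_pos hS _).le) this
  have hGi : Integrable (fun y : E N => gk V t x (t - S) y) := by
    refine Integrable.mono' ((integrable_hk_sub hS x).const_mul (Real.exp (K * S)))
      hGm.aestronglyMeasurable (Filter.Eventually.of_forall fun y => ?_)
    rw [Real.norm_of_nonneg (hb0 y)]
    exact hb1 y
  have hGh : Integrable (fun y => gk V t x (t - S) y * h y) := by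
    refine Integrable.mono' (hGi.const_mul M)
      (hGm.mul hhm).aestronglyMeasurable (Filter.Eventually.of_forall fun y => ?_)
    rw [Real.norm_of_nonneg (mul_nonneg (hb0 y) (hh0 y)), mul_comm]
    exact mul_le_mul_of_nonneg_right (hM y) (hb0 y)
  obtain ⟨B, hB⟩ := Pool.Agent.H28.RF.ENT.hlog_bdd M
  have hlog : Integrable (fun y => gk V t x (t - S) y * h y * Real.log (h y)) := by
    refine Integrable.mono' (hGi.const_mul B)
      ((hGm.mul hhm).mul hhm.log).aestronglyMeasurable (Filter.Eventually.of_forall fun y => ?_)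
    rw [mul_assoc, norm_mul, Real.norm_of_nonneg (hb0 y), Real.norm_eq_abs, mul_comm]
    exact mul_le_mul_of_nonneg_right (hB _ (hh0 y) (hM y)) (hb0 y)
  have hden : (∫ y, gk V t x (t - S) y * (lam * h y)) = lam * ∫ y, gk V t x (t - S) y * h y := by
    rw [← integral_const_mul]
    congr 1
    ext y
    ring
  have hnum1 : (∫ y, gk V t x (t - S) y * (lam * h y) * Real.log (lam * h y)) =
      lam * ((∫ y, gk V t x (t - S) y * h y * Real.log (h y)) +
        Real.log lam * ∫ y, gk V t x (t - S) y * h y) := by
    rw [← integral_const_mul (Real.log lam), ← integral_add hlog (hGh.const_mul _),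
      ← integral_const_mul]
    congr 1
    ext y
    rcases (hh0 y).eq_or_lt with h0 | h0
    · rw [← h0]
      ring
    · rw [Real.log_mul hlam.ne' h0.ne']
      ring
  have hnum2 : (∫ y, gk V t x (t - S) y * (lam * h y) * inner ℝ (y - x) e) =
      lam * ∫ y, gk V t x (t - S) y * h y * inner ℝ (y - x) e := by
    rw [← integral_const_mul]
    congr 1
    ext y
    ring
  unfold Gn Ex
  rw [hden, hnum1, hnum2, mul_div_mul_left _ _ hlam.ne', mul_div_mul_left _ _ hlam.ne', add_div,
    mul_div_cancel_right₀ _ hn.ne']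
  ring

end Pool.Agent.H21.RF
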