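import Pool.Agent.H91.RF.TargetsK2
import Pool.Agent.H28.RF.ENT

/-!
# MP_609556_an, module GLIM: passage to the limit in the gain functional
-/

open MeasureTheory Set Filter Topology Metric
open Pool.Agent.H29.TF
open Pool.Agent.H91.RD

namespace Pool.Agent.H21.RF

open Pool.Agent.H91.RF

/-- Fatou's lemma for real functions -/
theorem fatou_real {α : Type*} [MeasurableSpace α] {μ : Measure α} {f : ℕ → α → ℝ} {f0 : α → ℝ}
    {C : ℕ → ℝ} {C0 : ℝ} (h0 : ∀ n y, 0 ≤ f n y) (hi : ∀ᶠ n in atTop, Integrable (f n) μ)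
    (hle : ∀ᶠ n in atTop, ∫ y, f n y ∂μ ≤ C n) (hC : Tendsto C atTop (𝓝 C0))
    (hlim : ∀ y, Tendsto (fun n => f n y) atTop (𝓝 (f0 y))) :
    Integrable f0 μ ∧ ∫ y, f0 y ∂μ ≤ C0 := by
  obtain ⟨n0, hn0⟩ := (hi.and hle).exists_forall_of_atTop
  have hlim' : ∀ y, Tendsto (fun n => f (n + n0) y) atTop (𝓝 (f0 y)) := fun y =>
    (hlim y).comp (tendsto_add_atTop_nat n0)
  have hC' : Tendsto (fun n => C (n + n0)) atTop (𝓝 C0) := hC.comp (tendsto_add_atTop_nat n0)
  have h00 : ∀ y, 0 ≤ f0 y := fun y => ge_of_tendsto' (hlim y) fun n => h0 n y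
  have hm0 : AEStronglyMeasurable f0 μ :=
    aestronglyMeasurable_of_tendsto_ae atTop
      (fun n => (hn0 (n + n0) (Nat.le_add_left _ _)).1.aestronglyMeasurable)
      (Filter.Eventually.of_forall hlim')
  have hfat : ∫⁻ y, ENNReal.ofReal (f0 y) ∂μ ≤ ENNReal.ofReal C0 := by
    have h1 : ∀ y, ENNReal.ofReal (f0 y) =
        liminf (fun n => ENNReal.ofReal (f (n + n0) y)) atTop := by
      intro y
      exact ((ENNReal.continuous_ofReal.tendsto _).comp (hlim' y)).liminf_eq.symm
    simp only [h1]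
    refine (lintegral_liminf_le' fun n => ?_).trans ?_
    · exact (hn0 (n + n0) (Nat.le_add_left _ _)).1.aestronglyMeasurable.aemeasurable.ennreal_ofReal
    · have h2 : ∀ n, ∫⁻ y, ENNReal.ofReal (f (n + n0) y) ∂μ ≤ ENNReal.ofReal (C (n + n0)) := by
        intro n
        have h3 := hn0 (n + n0) (Nat.le_add_left _ _)
        rw [← ofReal_integral_eq_lintegral_ofReal h3.1 (Filter.Eventually.of_forall (h0 _))]
        exact ENNReal.ofReal_le_ofReal h3.2
      calc liminf (fun n => ∫⁻ y, ENNReal.ofReal (f (n + n0) y) ∂μ) atTop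
          ≤ liminf (fun n => ENNReal.ofReal (C (n + n0))) atTop :=
            liminf_le_liminf (Filter.Eventually.of_forall h2)
        _ = ENNReal.ofReal C0 :=
            ((ENNReal.continuous_ofReal.tendsto _).comp hC').liminf_eq
  have hi0 : Integrable f0 μ := by
    refine (lintegral_ofReal_ne_top_iff_integrable hm0 (Filter.Eventually.of_forall h00)).1 ?_
    exact ne_top_of_le_ne_top ENNReal.ofReal_ne_top hfat
  refine ⟨hi0, ?_⟩
  have hC0 : 0 ≤ C0 := by
    refine ge_of_tendsto' hC' fun n => ?_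
    exact (integral_nonneg (h0 _)).trans (hn0 (n + n0) (Nat.le_add_left _ _)).2
  rw [integral_eq_lintegral_of_nonneg_ae (Filter.Eventually.of_forall h00) hm0]
  exact ENNReal.toReal_le_of_le_ofReal hC0 hfat

/-- locally dominated and tight sequences of functions: the integrals converge -/
theorem tight_lim {N : ℕ} {F : ℕ → E N → ℝ} {F0 g : E N → ℝ} (Q : ℝ) (hg : Integrable g)
    (hFi : ∀ᶠ n in atTop, Integrable (F n))
    (hlim : ∀ y, Tendsto (fun n => F n y) atTop (𝓝 (F0 y)))
    (hloc : ∀ R > 0, ∃ B : ℝ, ∀ᶠ n in atTop, ∀ y ∈ closedBall (0 : E N) R, |F n y| ≤ B * g y)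
    (hti : ∀ᶠ n in atTop, Integrable (fun y => |F n y| * ‖y‖))
    (htl : ∀ᶠ n in atTop, ∫ y, |F n y| * ‖y‖ ≤ Q) :
    Integrable F0 ∧ Tendsto (fun n => ∫ y, F n y) atTop (𝓝 (∫ y, F0 y)) := by
  have hlim2 : ∀ y, Tendsto (fun n => |F n y| * ‖y‖) atTop (𝓝 (|F0 y| * ‖y‖)) := fun y =>
    (hlim y).abs.mul_const _
  obtain ⟨hi2, hb2⟩ := fatou_real (μ := volume) (C := fun _ => Q) (C0 := Q)
    (fun n y => mul_nonneg (abs_nonneg (F n y)) (norm_nonneg y)) hti htl tendsto_const_nhds hlim2
  have hQ : 0 ≤ Q := (integral_nonneg fun y => mul_nonneg (abs_nonneg _) (norm_nonneg _)).trans hb2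
  have hm0 : AEStronglyMeasurable F0 volume := by
    obtain ⟨n0, hn0⟩ := hFi.exists_forall_of_atTop
    exact aestronglyMeasurable_of_tendsto_ae atTop
      (fun n => (hn0 (n + n0) (Nat.le_add_left _ _)).aestronglyMeasurable)
      (Filter.Eventually.of_forall fun y => (hlim y).comp (tendsto_add_atTop_nat n0))
  -- on balls
  have hball : ∀ R > 0, IntegrableOn F0 (closedBall 0 R) ∧
      Tendsto (fun n => ∫ y in closedBall 0 R, F n y) atTop (𝓝 (∫ y in closedBall 0 R, F0 y)) := by
    intro R hR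
    obtain ⟨B, hB⟩ := hloc R hR
    have hF0 : ∀ y ∈ closedBall (0 : E N) R, |F0 y| ≤ B * g y := fun y hy =>
      le_of_tendsto (hlim y).abs (hB.mono fun n hn => hn y hy)
    refine ⟨?_, ?_⟩
    · refine Integrable.mono' (hg.const_mul B).integrableOn hm0.restrict ?_
      refine (ae_restrict_mem measurableSet_closedBall).mono fun y hy => ?_
      exact hF0 y hy
    · refine tendsto_integral_filter_of_dominated_convergence (fun y => B * g y) ?_ ?_
        (hg.const_mul B).integrableOn ?_
      · exact hFi.mono fun n hn => hn.aestronglyMeasurable.restrict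
      · refine hB.mono fun n hn => ?_
        exact (ae_restrict_mem measurableSet_closedBall).mono fun y hy => hn y hy
      · exact Filter.Eventually.of_forall hlim
  -- tails
  have htail : ∀ R > 0, ∀ G : E N → ℝ, Integrable (fun y => |G y| * ‖y‖) →
      AEStronglyMeasurable G volume →
      ∫ y, |G y| * ‖y‖ ≤ Q → IntegrableOn G (closedBall 0 R)ᶜ ∧
        |∫ y in (closedBall 0 R)ᶜ, G y| ≤ Q / R := by
    intro R hR G hG hGm hGQ
    have hpt : ∀ y ∈ (closedBall (0 : E N) R)ᶜ, ‖G y‖ ≤ |G y| * ‖y‖ / R := by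
      intro y hy
      have h1 : R < ‖y‖ := by
        simpa [mem_closedBall, dist_zero_right, not_le] using hy
      rw [Real.norm_eq_abs, le_div_iff₀ hR]
      exact mul_le_mul_of_nonneg_left h1.le (abs_nonneg _)
    have hio : IntegrableOn (fun y => |G y| * ‖y‖ / R) (closedBall 0 R)ᶜ :=
      (hG.div_const R).integrableOn
    have hiG : IntegrableOn G (closedBall 0 R)ᶜ := by
      refine Integrable.mono' hio hGm.restrict ?_
      exact (ae_restrict_mem measurableSet_closedBall.compl).mono hpt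
    refine ⟨hiG, ?_⟩
    calc |∫ y in (closedBall 0 R)ᶜ, G y| ≤ ∫ y in (closedBall 0 R)ᶜ, |G y| * ‖y‖ / R := by
          refine (abs_integral_le_integral_abs (f := G)).trans ?_
          exact setIntegral_mono_on hiG.abs hio measurableSet_closedBall.compl hpt
      _ ≤ ∫ y, |G y| * ‖y‖ / R := by
          refine setIntegral_le_integral (hG.div_const R) ?_
          exact Filter.Eventually.of_forall fun y =>
            div_nonneg (mul_nonneg (abs_nonneg _) (norm_nonneg _)) hR.le
      _ = (∫ y, |G y| * ‖y‖) / R := integral_div _ _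
      _ ≤ Q / R := div_le_div_of_nonneg_right hGQ hR.le
  have hi0 : Integrable F0 := by
    have h1 := (hball 1 one_pos).1
    have h2 := (htail 1 one_pos F0 hi2 hm0 hb2).1
    have := h1.union h2
    rwa [union_compl_self, integrableOn_univ] at this
  refine ⟨hi0, ?_⟩
  rw [Metric.tendsto_atTop']
  intro ε hε
  set R := 3 * (Q + 1) / ε with hR
  have hR0 : 0 < R := by positivity
  have hQR : Q / R < ε / 3 := by
    rw [div_lt_div_iff₀ hR0 (by norm_num), hR]
    field_simp
    linarith
  have h3 := (Metric.tendsto_nhds.1 (hball R hR0).2) (ε / 3) (by positivity)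
  obtain ⟨n1, hn1⟩ := (((h3.and hFi).and hti).and htl).exists_forall_of_atTop
  refine ⟨n1, fun n hn => ?_⟩
  obtain ⟨⟨⟨h4, h5⟩, h6⟩, h7⟩ := hn1 n hn.le
  have e1 := integral_add_compl (measurableSet_closedBall (x := (0 : E N)) (ε := R)) h5
  have e2 := integral_add_compl (measurableSet_closedBall (x := (0 : E N)) (ε := R)) hi0
  have t1 := (htail R hR0 (F n) h6 h5.aestronglyMeasurable h7).2
  have t2 := (htail R hR0 F0 hi2 hm0 hb2).2
  rw [Real.dist_eq] at h4 ⊢
  rw [← e1, ← e2]
  have := abs_lt.1 h4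
  have := abs_le.1 t1
  have := abs_le.1 t2
  rw [abs_lt]
  constructor <;> linarith

/-- integrability of the second moment of the heat kernel -/
theorem hk_sq_int {N : ℕ} {S : ℝ} (hS : 0 < S) :
    Integrable (fun y : E N => hk S (0 - y) * ‖y‖ ^ 2) := by
  have hi2 : Integrable (fun y : E N => hk S (0 - y) * Real.exp (‖y - 0‖ ^ 2 / (8 * S))) := by
    have hexp2 : (fun y : E N => hk S (0 - y) * Real.exp (‖y - 0‖ ^ 2 / (8 * S))) =
        fun y => (2 : ℝ) ^ ((N : ℝ) / 2) * hk (2 * S) (0 - y) := by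
      ext y; exact Pool.Agent.H28.RF.ENT.hk_exp2 hS 0 y
    rw [hexp2]
    exact (integrable_hk_sub (by positivity) _).const_mul _
  refine Integrable.mono' (hi2.const_mul (8 * S)) (Measurable.aestronglyMeasurable
    (by
      refine Measurable.mul ?_ ?_
      · exact ((continuous_hk S).comp (by fun_prop)).measurable
      · fun_prop)) (Filter.Eventually.of_forall fun y => ?_)
  rw [Real.norm_of_nonneg (mul_nonneg (hk_pos hS _).le (by positivity)), sub_zero]
  have h1 := Real.add_one_le_exp (‖y‖ ^ 2 / (8 * S))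
  have h2 : ‖y‖ ^ 2 ≤ 8 * S * Real.exp (‖y‖ ^ 2 / (8 * S)) := by
    have h3 : ‖y‖ ^ 2 / (8 * S) ≤ Real.exp (‖y‖ ^ 2 / (8 * S)) := by linarith
    rw [div_le_iff₀ (by positivity)] at h3
    linarith
  have h4 := mul_le_mul_of_nonneg_left h2 (hk_pos hS (0 - y)).le
  linarith

theorem slogs {s : ℝ} (hs : 0 ≤ s) : 0 ≤ s * Real.log s + 1 := by
  rcases hs.eq_or_lt with h0 | h0
  · rw [← h0]; simp
  · have h1 := Real.log_le_sub_one_of_pos (inv_pos.2 h0)
    rw [Real.log_inv] at h1
    have h2 : 1 - s⁻¹ ≤ Real.log s := by linarith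
    have h3 := mul_le_mul_of_nonneg_left h2 hs
    have h4 : s * (1 - s⁻¹) = s - 1 := by field_simp
    linarith

/-- an elementary bound -/
theorem absorb {q A b S : ℝ} (hS : 0 < S) (hb : 0 ≤ b)
    (h : q / (8 * S) ≤ A + b * (q / (16 * S * (b + 1)) + 4 * S * (b + 1))) (hq : 0 ≤ q) :
    q ≤ 16 * S * (A + b * (4 * S * (b + 1))) := by
  have h1 : b * (q / (16 * S * (b + 1))) ≤ q / (16 * S) := by
    rw [← mul_div_assoc, div_le_div_iff₀ (by positivity) (by positivity)]
    have : b * q * (16 * S) ≤ q * (16 * S * (b + 1)) := by nlinarith [mul_nonneg hq hS.le]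
    exact this
  have h2 : q / (8 * S) = q / (16 * S) + q / (16 * S) := by
    field_simp
    ring
  have h3 : q / (16 * S) ≤ A + b * (4 * S * (b + 1)) := by nlinarith
  rw [div_le_iff₀ (by positivity)] at h3
  linarith

theorem lin_sq {r δ : ℝ} (hδ : 0 < δ) : r ≤ r ^ 2 * δ + 1 / (4 * δ) := by
  have h : 0 ≤ (2 * δ * r - 1) ^ 2 := sq_nonneg _
  have h2 : r ^ 2 * δ + 1 / (4 * δ) - r = (2 * δ * r - 1) ^ 2 / (4 * δ) := by
    field_simp
    ring
  have h3 : 0 ≤ (2 * δ * r - 1) ^ 2 / (4 * δ) := by positivity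
  linarith

theorem glim (hKER : T_KER) (hKCV : T_KCV) (hENT : T_ENT) : T_GLIM := by
  intro N K S β c C' V W h hl e el hV hW hS hVW hh hhl hhB he hel hnu hGn
  -- kernels
  set G : ℕ → E N → ℝ := fun n y => gk (V n) 0 0 (0 - S) y with hGdef
  set G0 : E N → ℝ := fun y => gk W 0 0 (0 - S) y with hG0def
  have hlt : (0 : ℝ) - S < 0 := by linarith
  have hts : (0 : ℝ) - (0 - S) = S := by ring
  have hGm : ∀ n, Measurable (G n) := fun n =>
    ((hKER N K (V n) (hV n)).1 (0 - S) 0 hlt).comp (measurable_const.prodMk measurable_id)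
  have hG0m : Measurable G0 :=
    ((hKER N K W hW).1 (0 - S) 0 hlt).comp (measurable_const.prodMk measurable_id)
  have hGb : ∀ n y, 0 ≤ G n y ∧ G n y ≤ Real.exp (K * S) * hk S (0 - y) := by
    intro n y
    have := (hKER N K (V n) (hV n)).2.1 (0 - S) 0 hlt 0 y
    rw [hts] at this
    exact ⟨le_trans (mul_nonneg (Real.exp_pos _).le (hk_pos hS _).le) this.1, this.2⟩
  have hG0b : ∀ y, 0 ≤ G0 y ∧ G0 y ≤ Real.exp (K * S) * hk S (0 - y) := by
    intro y
    have := (hKER N K W hW).2.1 (0 - S) 0 hlt 0 y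
    rw [hts] at this
    exact ⟨le_trans (mul_nonneg (Real.exp_pos _).le (hk_pos hS _).le) this.1, this.2⟩
  have hGlim : ∀ y, Tendsto (fun n => G n y) atTop (𝓝 (G0 y)) := by
    intro y
    refine hKCV N K (0 - S) 0 V W hV hW hlt (fun r hr x => ?_) 0 y
    exact hVW r ⟨by linarith [hr.1], hr.2⟩ x
  set g : E N → ℝ := fun y => Real.exp (K * S) * hk S (0 - y) with hgdef
  have hgi : Integrable g := (integrable_hk_sub hS 0).const_mul _
  have hg0 : ∀ y, 0 ≤ g y := fun y => mul_nonneg (Real.exp_pos _).le (hk_pos hS _).le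
  have hgsq : Integrable (fun y => g y * ‖y‖ ^ 2) := by
    have := (hk_sq_int (N := N) hS).const_mul (Real.exp (K * S))
    refine this.congr (Filter.Eventually.of_forall fun y => ?_)
    simp only [hgdef]
    ring
  have hGi : ∀ n, Integrable (G n) := fun n =>
    Integrable.mono' hgi (hGm n).aestronglyMeasurable (Filter.Eventually.of_forall fun y => by
      rw [Real.norm_of_nonneg (hGb n y).1]; exact (hGb n y).2)
  have hG0i : Integrable G0 :=
    Integrable.mono' hgi hG0m.aestronglyMeasurable (Filter.Eventually.of_forall fun y => by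
      rw [Real.norm_of_nonneg (hG0b y).1]; exact (hG0b y).2)
  have hGint : Tendsto (fun n => ∫ y, G n y) atTop (𝓝 (∫ y, G0 y)) :=
    tendsto_integral_of_dominated_convergence g (fun n => (hGm n).aestronglyMeasurable) hgi
      (fun n => Filter.Eventually.of_forall fun y => by
        rw [Real.norm_of_nonneg (hGb n y).1]; exact (hGb n y).2)
      (Filter.Eventually.of_forall hGlim)
  -- integrability for each n
  have hi1 : ∀ n, Integrable (fun y => G n y * h n y) := by
    intro n
    obtain ⟨hm, hp, M, hM⟩ := hh n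
    refine Integrable.mono' (hgi.const_mul M) ((hGm n).mul hm).aestronglyMeasurable
      (Filter.Eventually.of_forall fun y => ?_)
    rw [Real.norm_of_nonneg (mul_nonneg (hGb n y).1 (hp y)), mul_comm]
    exact mul_le_mul (hM y) (hGb n y).2 (hGb n y).1 ((hp y).trans (hM y))
  have hi3 : ∀ n, Integrable (fun y => G n y * h n y * ‖y‖ ^ 2) := by
    intro n
    obtain ⟨hm, hp, M, hM⟩ := hh n
    refine Integrable.mono' (hgsq.const_mul M)
      (((hGm n).mul hm).mul (by fun_prop)).aestronglyMeasurable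
      (Filter.Eventually.of_forall fun y => ?_)
    rw [Real.norm_of_nonneg (mul_nonneg (mul_nonneg (hGb n y).1 (hp y)) (by positivity))]
    have h1 : G n y * h n y ≤ M * g y := by
      rw [mul_comm]
      exact mul_le_mul (hM y) (hGb n y).2 (hGb n y).1 ((hp y).trans (hM y))
    calc G n y * h n y * ‖y‖ ^ 2 ≤ M * g y * ‖y‖ ^ 2 :=
          mul_le_mul_of_nonneg_right h1 (by positivity)
      _ = _ := by ring
  have hi4 : ∀ n, Integrable (fun y => G n y * h n y * Real.log (h n y)) := by
    intro n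
    obtain ⟨hm, hp, M, hM⟩ := hh n
    obtain ⟨B, hB⟩ := Pool.Agent.H28.RF.ENT.hlog_bdd M
    refine Integrable.mono' ((hGi n).const_mul B)
      (((hGm n).mul hm).mul hm.log).aestronglyMeasurable (Filter.Eventually.of_forall fun y => ?_)
    rw [mul_assoc, norm_mul, Real.norm_of_nonneg (hGb n y).1, Real.norm_eq_abs, mul_comm]
    exact mul_le_mul_of_nonneg_right (hB _ (hp y) (hM y)) (hGb n y).1
  have hk0 : ∀ n y, 0 ≤ G n y * h n y := fun n y => mul_nonneg (hGb n y).1 ((hh n).2.1 y)
  have hin : ∀ n y, |inner ℝ y (e n)| ≤ ‖y‖ := by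
    intro n y
    have := abs_real_inner_le_norm y (e n)
    rwa [he n, mul_one] at this
  have hi2 : ∀ n, Integrable (fun y => G n y * h n y * inner ℝ y (e n)) := by
    intro n
    refine Integrable.mono' ((hi1 n).add (hi3 n))
      (((hGm n).mul (hh n).1).mul (by fun_prop)).aestronglyMeasurable
      (Filter.Eventually.of_forall fun y => ?_)
    rw [norm_mul, Real.norm_of_nonneg (hk0 n y), Real.norm_eq_abs]
    have h4 : ‖y‖ ≤ 1 + ‖y‖ ^ 2 := by nlinarith [sq_nonneg (‖y‖ - 1), norm_nonneg y]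
    simp only [Pi.add_apply]
    calc G n y * h n y * |inner ℝ y (e n)| ≤ G n y * h n y * (1 + ‖y‖ ^ 2) :=
          mul_le_mul_of_nonneg_left ((hin n y).trans h4) (hk0 n y)
      _ = _ := by ring
  -- abbreviations
  set ν : ℕ → ℝ := fun n => ∫ y, G n y * h n y with hνdef
  have hν : Tendsto ν atTop (𝓝 1) := hnu
  have hνe : ∀ᶠ n in atTop, 1 / 2 < ν n ∧ ν n < 2 := by
    have h1 : ∀ᶠ n in atTop, 1 / 2 < ν n := hν.eventually (lt_mem_nhds (by norm_num))
    have h2 : ∀ᶠ n in atTop, ν n < 2 := hν.eventually (gt_mem_nhds (by norm_num))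
    exact h1.and h2
  set L : ℕ → ℝ := fun n => (∫ y, G n y * h n y * Real.log (h n y)) / ν n with hLdef
  set m : ℕ → ℝ := fun n => (∫ y, G n y * h n y * inner ℝ y (e n)) / ν n with hmdef
  set q : ℕ → ℝ := fun n => (∫ y, G n y * h n y * ‖y‖ ^ 2) / ν n with hqdef
  have hGnE : ∀ n, Gn (V n) (h n) β c (e n) S 0 0 = L n + β * (m n + c * S) := by
    intro n
    simp only [hLdef, hmdef, hνdef, hGdef, Gn, Ex, sub_zero]
  -- entropy
  have hent : ∀ᶠ n in atTop, Real.log (ν n) - K * S - N / 2 * Real.log 2 + q n / (8 * S) ≤ L n := by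
    refine hνe.mono fun n hn => ?_
    obtain ⟨hm1, hp, hM⟩ := hh n
    have hpos : 0 < ∫ y, gk (V n) 0 0 (0 - S) y * h n y := by
      have : 0 < ν n := by linarith [hn.1]
      exact this
    have := (hENT N K S 0 (V n) (h n) 0 (hV n) hS hm1 hp hM hpos).2
    simp only [Ex, sub_zero] at this
    exact this
  have hmq : ∀ᶠ n in atTop, ∀ δ > 0, |m n| ≤ q n * δ + 1 / (4 * δ) := by
    refine hνe.mono fun n hn δ hδ => ?_
    have hνp : 0 < ν n := by linarith [hn.1]
    have h1 : |∫ y, G n y * h n y * inner ℝ y (e n)| ≤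
        ∫ y, (G n y * h n y * ‖y‖ ^ 2 * δ + G n y * h n y * (1 / (4 * δ))) := by
      refine (abs_integral_le_integral_abs
        (f := fun y => G n y * h n y * inner ℝ y (e n))).trans ?_
      refine integral_mono (hi2 n).abs (((hi3 n).mul_const δ).add ((hi1 n).mul_const _)) ?_
      intro y
      simp only [Pi.add_apply]
      rw [abs_mul, abs_of_nonneg (hk0 n y)]
      have h2 : |inner ℝ y (e n)| ≤ ‖y‖ ^ 2 * δ + 1 / (4 * δ) := (hin n y).trans (lin_sq hδ)
      have h3 := mul_le_mul_of_nonneg_left h2 (hk0 n y)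
      calc _ ≤ _ := h3
        _ = _ := by ring
    rw [integral_add ((hi3 n).mul_const δ) ((hi1 n).mul_const _), integral_mul_const,
      integral_mul_const] at h1
    simp only [hmdef, hqdef]
    rw [abs_div, abs_of_pos hνp, div_le_iff₀ hνp]
    refine h1.trans (le_of_eq ?_)
    have h5 : ∫ y, G n y * h n y = ν n := rfl
    rw [h5]
    field_simp
  set A := |C'| + 1 + K * S + N / 2 * Real.log 2 + |β * (c * S)| with hA
  set Q := 2 * (16 * S * (A + |β| * (4 * S * (|β| + 1)))) with hQ
  have hlog2 : Real.log 2 ≤ 1 := by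
    have := Real.log_two_lt_d9
    linarith
  have hlog2' : 0 ≤ Real.log 2 := Real.log_nonneg (by norm_num)
  have hA0 : 0 ≤ A := by
    have := abs_nonneg C'
    have := abs_nonneg (β * (c * S))
    have hK0 := hW.K0
    positivity
  have hqQ : ∀ᶠ n in atTop, 0 ≤ ∫ y, G n y * h n y * ‖y‖ ^ 2 ∧
      (∫ y, G n y * h n y * ‖y‖ ^ 2) ≤ Q := by
    filter_upwards [hνe, hent, hmq] with n hn1 hn2 hn3
    have hνp : 0 < ν n := by linarith [hn1.1]
    have hq0' : 0 ≤ ∫ y, G n y * h n y * ‖y‖ ^ 2 :=
      integral_nonneg fun y => mul_nonneg (hk0 n y) (by positivity)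
    have hq0 : 0 ≤ q n := div_nonneg hq0' hνp.le
    have hmm := hn3 (1 / (16 * S * (|β| + 1))) (by positivity)
    have hGn1 := hGn n
    rw [hGnE n] at hGn1
    have hlogν : -1 ≤ Real.log (ν n) := by
      have h1 : Real.log (1 / 2) ≤ Real.log (ν n) := Real.log_le_log (by norm_num) hn1.1.le
      rw [one_div, Real.log_inv] at h1
      linarith
    have hβ : -(β * m n) ≤ |β| * |m n| := by
      rw [← abs_mul]
      exact neg_le_abs _
    have hβ2 : |β| * |m n| ≤ |β| * (q n * (1 / (16 * S * (|β| + 1))) +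
        1 / (4 * (1 / (16 * S * (|β| + 1))))) := mul_le_mul_of_nonneg_left hmm (abs_nonneg _)
    have h9 : 1 / (4 * (1 / (16 * S * (|β| + 1)))) = 4 * S * (|β| + 1) := by
      field_simp
      ring
    rw [h9, mul_one_div] at hβ2
    have h10 : -(β * (c * S)) ≤ |β * (c * S)| := neg_le_abs _
    have h11 : C' ≤ |C'| := le_abs_self _
    have h12 : q n / (8 * S) ≤ A + |β| * (q n / (16 * S * (|β| + 1)) + 4 * S * (|β| + 1)) := by
      rw [hA]
      rw [mul_add β] at hGn1
      linarith
    have h13 := absorb hS (abs_nonneg β) h12 hq0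
    refine ⟨hq0', ?_⟩
    have h14 : (∫ y, G n y * h n y * ‖y‖ ^ 2) = q n * ν n := by
      simp only [hqdef]
      field_simp
    rw [h14, hQ]
    have h15 : 0 ≤ 16 * S * (A + |β| * (4 * S * (|β| + 1))) := hq0.trans h13
    calc q n * ν n ≤ (16 * S * (A + |β| * (4 * S * (|β| + 1)))) * 2 :=
          mul_le_mul h13 hn1.2.le hνp.le h15
      _ = _ := by ring
  -- pointwise limits
  have hklim : ∀ y, Tendsto (fun n => G n y * h n y) atTop (𝓝 (G0 y * hl y)) := fun y =>
    (hGlim y).mul (hhl y)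
  have hl0 : ∀ y, 0 ≤ hl y := fun y => ge_of_tendsto' (hhl y) fun n => (hh n).2.1 y
  have hloc : ∀ R > 0, ∃ B : ℝ, ∀ᶠ n in atTop, ∀ y ∈ closedBall (0 : E N) R,
      G n y * h n y ≤ B * g y := by
    intro R hR
    obtain ⟨B, hB⟩ := hhB R hR
    refine ⟨B, hB.mono fun n hn y hy => ?_⟩
    rw [mul_comm]
    exact mul_le_mul (hn y hy) (hGb n y).2 (hGb n y).1 (((hh n).2.1 y).trans (hn y hy))
  -- total mass
  have hmass := tight_lim (F := fun n y => G n y * h n y) (F0 := fun y => G0 y * hl y) (g := g)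
    (2 + Q) hgi (Filter.Eventually.of_forall hi1) hklim
    (by
      intro R hR
      obtain ⟨B, hB⟩ := hloc R hR
      refine ⟨B, hB.mono fun n hn y hy => ?_⟩
      rw [abs_of_nonneg (hk0 n y)]
      exact hn y hy)
    (Filter.Eventually.of_forall fun n => by
      refine Integrable.mono' ((hi1 n).add (hi3 n))
        ((((hGm n).mul (hh n).1).abs).mul (by fun_prop)).aestronglyMeasurable
        (Filter.Eventually.of_forall fun y => ?_)
      simp only [Pi.add_apply]
      rw [Real.norm_of_nonneg (mul_nonneg (abs_nonneg _) (norm_nonneg _)), abs_of_nonneg (hk0 n y)]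
      have h4 : ‖y‖ ≤ 1 + ‖y‖ ^ 2 := by nlinarith [sq_nonneg (‖y‖ - 1), norm_nonneg y]
      calc G n y * h n y * ‖y‖ ≤ G n y * h n y * (1 + ‖y‖ ^ 2) :=
            mul_le_mul_of_nonneg_left h4 (hk0 n y)
        _ = _ := by ring)
    (by
      filter_upwards [hνe, hqQ] with n hn1 hn2
      have h5 : (∫ y, |G n y * h n y| * ‖y‖) ≤
          ∫ y, (G n y * h n y + G n y * h n y * ‖y‖ ^ 2) := by
        refine integral_mono_of_nonneg (Filter.Eventually.of_forall fun y =>
          mul_nonneg (abs_nonneg _) (norm_nonneg _)) ((hi1 n).add (hi3 n))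
          (Filter.Eventually.of_forall fun y => ?_)
        simp only
        rw [abs_of_nonneg (hk0 n y)]
        have h4 : ‖y‖ ≤ 1 + ‖y‖ ^ 2 := by nlinarith [sq_nonneg (‖y‖ - 1), norm_nonneg y]
        calc G n y * h n y * ‖y‖ ≤ G n y * h n y * (1 + ‖y‖ ^ 2) :=
              mul_le_mul_of_nonneg_left h4 (hk0 n y)
          _ = _ := by ring
      rw [integral_add (hi1 n) (hi3 n)] at h5
      have h6 : ∫ y, G n y * h n y = ν n := rfl
      rw [h6] at h5
      linarith [hn1.2, hn2.2])
  have hone : (∫ y, G0 y * hl y) = 1 := tendsto_nhds_unique hmass.2 hν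
  -- first moment
  have hmlim : ∀ y, Tendsto (fun n => G n y * h n y * inner ℝ y (e n)) atTop
      (𝓝 (G0 y * hl y * inner ℝ y el)) := fun y =>
    (hklim y).mul (tendsto_const_nhds.inner hel)
  have hmom := tight_lim (F := fun n y => G n y * h n y * inner ℝ y (e n))
    (F0 := fun y => G0 y * hl y * inner ℝ y el) (g := g)
    Q hgi (Filter.Eventually.of_forall hi2) hmlim
    (by
      intro R hR
      obtain ⟨B, hB⟩ := hloc R hR
      refine ⟨B * R, hB.mono fun n hn y hy => ?_⟩
      rw [abs_mul, abs_of_nonneg (hk0 n y)]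
      have h1 : ‖y‖ ≤ R := by simpa [mem_closedBall, dist_zero_right] using hy
      have h2 : 0 ≤ B * g y := (hk0 n y).trans (hn y hy)
      calc G n y * h n y * |inner ℝ y (e n)| ≤ B * g y * R :=
            mul_le_mul (hn y hy) ((hin n y).trans h1) (abs_nonneg _) h2
        _ = _ := by ring)
    (Filter.Eventually.of_forall fun n => by
      refine Integrable.mono' (hi3 n)
        (((((hGm n).mul (hh n).1).mul (by fun_prop)).abs).mul (by fun_prop)).aestronglyMeasurable
        (Filter.Eventually.of_forall fun y => ?_)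
      rw [Real.norm_of_nonneg (mul_nonneg (abs_nonneg _) (norm_nonneg _)), abs_mul,
        abs_of_nonneg (hk0 n y)]
      calc G n y * h n y * |inner ℝ y (e n)| * ‖y‖ ≤ G n y * h n y * ‖y‖ * ‖y‖ := by
            refine mul_le_mul_of_nonneg_right ?_ (norm_nonneg _)
            exact mul_le_mul_of_nonneg_left (hin n y) (hk0 n y)
        _ = _ := by ring)
    (by
      filter_upwards [hqQ] with n hn2
      refine le_trans ?_ hn2.2
      refine integral_mono_of_nonneg (Filter.Eventually.of_forall fun y =>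
          mul_nonneg (abs_nonneg _) (norm_nonneg _)) (hi3 n)
          (Filter.Eventually.of_forall fun y => ?_)
      simp only
      rw [abs_mul, abs_of_nonneg (hk0 n y)]
      calc G n y * h n y * |inner ℝ y (e n)| * ‖y‖ ≤ G n y * h n y * ‖y‖ * ‖y‖ := by
            refine mul_le_mul_of_nonneg_right ?_ (norm_nonneg _)
            exact mul_le_mul_of_nonneg_left (hin n y) (hk0 n y)
        _ = _ := by ring)
  set m0 := ∫ y, G0 y * hl y * inner ℝ y el with hm0
  have hmt : Tendsto m atTop (𝓝 m0) := by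
    have := hmom.2.div hν one_ne_zero
    rwa [div_one] at this
  -- second moment
  have hsec := fatou_real (μ := (volume : Measure (E N)))
    (f := fun n y => G n y * h n y * ‖y‖ ^ 2)
    (f0 := fun y => G0 y * hl y * ‖y‖ ^ 2) (C := fun _ => Q) (C0 := Q)
    (fun n y => mul_nonneg (hk0 n y) (by positivity)) (Filter.Eventually.of_forall hi3)
    (hqQ.mono fun n hn => hn.2) tendsto_const_nhds (fun y => (hklim y).mul_const _)
  -- the logarithm
  have hfi : ∀ n, Integrable (fun y => G n y * (h n y * Real.log (h n y) + 1)) := by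
    intro n
    refine ((hi4 n).add (hGi n)).congr (Filter.Eventually.of_forall fun y => ?_)
    simp only [Pi.add_apply]
    ring
  have hfE : ∀ᶠ n in atTop, (∫ y, G n y * (h n y * Real.log (h n y) + 1)) =
      ν n * L n + ∫ y, G n y := by
    refine hνe.mono fun n hn => ?_
    have hνp : 0 < ν n := by linarith [hn.1]
    have h1 : (∫ y, G n y * (h n y * Real.log (h n y) + 1)) =
        ∫ y, (G n y * h n y * Real.log (h n y) + G n y) := by
      congr 1
      ext y
      ring
    rw [h1, integral_add (hi4 n) (hGi n)]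
    simp only [hLdef]
    field_simp
  have hflim : ∀ y, Tendsto (fun n => G n y * (h n y * Real.log (h n y) + 1)) atTop
      (𝓝 (G0 y * (hl y * Real.log (hl y) + 1))) := by
    intro y
    refine (hGlim y).mul (Tendsto.add_const 1 ?_)
    exact (Real.continuous_mul_log.tendsto (hl y)).comp (hhl y)
  have hf0 : ∀ n y, 0 ≤ G n y * (h n y * Real.log (h n y) + 1) := fun n y =>
    mul_nonneg (hGb n y).1 (slogs ((hh n).2.1 y))
  have hlogfat := fatou_real (μ := (volume : Measure (E N)))
    (f := fun n y => G n y * (h n y * Real.log (h n y) + 1))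
    (f0 := fun y => G0 y * (hl y * Real.log (hl y) + 1))
    (C := fun n => ν n * (C' - β * (m n + c * S)) + ∫ y, G n y)
    (C0 := 1 * (C' - β * (m0 + c * S)) + ∫ y, G0 y) hf0 (Filter.Eventually.of_forall hfi)
    (by
      filter_upwards [hfE, hνe] with n hn1 hn2
      rw [hn1]
      have h1 := hGn n
      rw [hGnE n] at h1
      have hνp : 0 < ν n := by linarith [hn2.1]
      have h2 : L n ≤ C' - β * (m n + c * S) := by linarith
      have h3 := mul_le_mul_of_nonneg_left h2 hνp.le
      linarith)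
    ((hν.mul (tendsto_const_nhds.sub (tendsto_const_nhds.mul (hmt.add_const _)))).add hGint)
    hflim
  have hi0log : Integrable (fun y => G0 y * (hl y * Real.log (hl y))) := by
    refine (hlogfat.1.sub hG0i).congr (Filter.Eventually.of_forall fun y => ?_)
    simp only [Pi.sub_apply]
    ring
  refine ⟨hmass.1, hone, hsec.1, hi0log, ?_⟩
  intro ε hε
  set I0 := ∫ y, G0 y * (hl y * Real.log (hl y)) with hI0
  have hI0E : (∫ y, G0 y * (hl y * Real.log (hl y) + 1)) = I0 + ∫ y, G0 y := by
    rw [hI0, ← integral_add hi0log hG0i]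
    congr 1
    ext y
    ring
  have hGnW : Gn W hl β c el S 0 0 = I0 + β * (m0 + c * S) := by
    have h1 : (∫ y, G0 y * hl y * Real.log (hl y)) = I0 := by
      rw [hI0]
      congr 1
      ext y
      ring
    have h2 : Gn W hl β c el S 0 0 = (∫ y, G0 y * hl y * Real.log (hl y)) / (∫ y, G0 y * hl y) +
        β * ((∫ y, G0 y * hl y * inner ℝ y el) / (∫ y, G0 y * hl y) + c * S) := by
      simp only [hG0def, Gn, Ex, sub_zero]
    rw [h2, hone, h1, div_one, div_one]
  have hLlow : ∀ᶠ n in atTop, I0 - ε / 2 ≤ L n := by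
    by_contra hcon
    rw [Filter.not_eventually] at hcon
    obtain ⟨φ, hφ, hφ2⟩ := extraction_of_frequently_atTop hcon
    have hφt := hφ.tendsto_atTop
    have := fatou_real (μ := (volume : Measure (E N)))
      (f := fun n y => G (φ n) y * (h (φ n) y * Real.log (h (φ n) y) + 1))
      (f0 := fun y => G0 y * (hl y * Real.log (hl y) + 1))
      (C := fun n => ν (φ n) * (I0 - ε / 2) + ∫ y, G (φ n) y)
      (C0 := 1 * (I0 - ε / 2) + ∫ y, G0 y) (fun n => hf0 (φ n))
      (Filter.Eventually.of_forall fun n => hfi (φ n))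
      (by
        filter_upwards [hφt.eventually hfE, hφt.eventually hνe] with n hn1 hn2
        rw [hn1]
        have hνp : 0 < ν (φ n) := by linarith [hn2.1]
        have h2 : L (φ n) ≤ I0 - ε / 2 := (not_le.1 (hφ2 n)).le
        have h3 := mul_le_mul_of_nonneg_left h2 hνp.le
        linarith)
      (((hν.comp hφt).mul tendsto_const_nhds).add (hGint.comp hφt))
      (fun y => (hflim y).comp hφt)
    have h4 := this.2
    rw [hI0E] at h4
    linarith
  have hmlow : ∀ᶠ n in atTop, |β * (m n + c * S) - β * (m0 + c * S)| < ε / 2 := by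
    have h1 : Tendsto (fun n => β * (m n + c * S)) atTop (𝓝 (β * (m0 + c * S))) :=
      tendsto_const_nhds.mul (hmt.add_const _)
    exact (Metric.tendsto_nhds.1 h1 (ε / 2) (by positivity)).mono fun n hn => by
      rwa [Real.dist_eq] at hn
  filter_upwards [hLlow, hmlow] with n hn1 hn2
  rw [hGnW, hGnE n]
  have := abs_lt.1 hn2
  linarith

end Pool.Agent.H21.RF
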