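import Pool.Agent.H91.RF.TargetsK2
import Pool.Agent.H48.RF.KE1

/-!
# MP_609556_an, module KLX: the kernel is Lipschitz in `x`
-/

open MeasureTheory Set Filter Topology Metric
open Pool.Agent.H29.TF
open Pool.Agent.H91.RD

namespace Pool.Agent.H21.RF.KLX

open Pool.Agent.H91.RF

/-- the prefactor of the heat kernel -/
noncomputable def pf (N : ℕ) (q : ℝ) : ℝ := (4 * Real.pi * q) ^ (-(N : ℝ) / 2)

/-- the constant `4^{N/2}` -/
noncomputable def c4 (N : ℕ) : ℝ := (4 : ℝ) ^ ((N : ℝ) / 2)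

theorem c4_ge (N : ℕ) : 1 ≤ c4 N := Real.one_le_rpow (by norm_num) (by positivity)

theorem hk_eq {N : ℕ} (q : ℝ) (a : E N) : hk q a = pf N q * Real.exp (-‖a‖ ^ 2 / (4 * q)) := by
  unfold hk pf
  rw [finrank_euclideanSpace, Fintype.card_fin]

theorem pf_pos (N : ℕ) {q : ℝ} (hq : 0 < q) : 0 < pf N q := Real.rpow_pos_of_pos (by positivity) _

theorem pf_four (N : ℕ) {q : ℝ} (hq : 0 < q) : pf N q = c4 N * pf N (4 * q) := by
  unfold pf c4
  have h0 : (4 : ℝ) ^ ((N : ℝ) / 2) * (4 : ℝ) ^ (-(N : ℝ) / 2) = 1 := by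
    rw [← Real.rpow_add (by norm_num), show (N : ℝ) / 2 + -(N : ℝ) / 2 = 0 by ring,
      Real.rpow_zero]
  have h1 : (4 * (4 * Real.pi * q)) ^ (-(N : ℝ) / 2) =
      (4 : ℝ) ^ (-(N : ℝ) / 2) * (4 * Real.pi * q) ^ (-(N : ℝ) / 2) :=
    Real.mul_rpow (by norm_num) (by positivity)
  rw [show 4 * Real.pi * (4 * q) = 4 * (4 * Real.pi * q) by ring, h1, ← mul_assoc, h0, one_mul]

theorem pf_anti (N : ℕ) {q q' : ℝ} (hq : 0 < q) (h : q ≤ q') : pf N q' ≤ pf N q := by
  unfold pf
  refine Real.rpow_le_rpow_of_nonpos (by positivity) ?_ ?_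
  · exact mul_le_mul_of_nonneg_left h (by positivity)
  · rw [neg_div]
    exact neg_nonpos.2 (by positivity)

theorem norm_sq_le {N : ℕ} (a b : E N) : ‖a‖ ^ 2 ≤ 2 * ‖b‖ ^ 2 + 2 * ‖a - b‖ ^ 2 := by
  have h1 : ‖a‖ ≤ ‖b‖ + ‖a - b‖ := by
    have := norm_add_le b (a - b)
    rwa [add_sub_cancel] at this
  have h2 := norm_nonneg a
  nlinarith [sq_nonneg (‖b‖ - ‖a - b‖), norm_nonneg b, norm_nonneg (a - b)]

theorem sq_le_of_le_sqrt {d q : ℝ} (hd : 0 ≤ d) (hq : 0 ≤ q) (h : d ≤ √q) : d ^ 2 ≤ q := by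
  have := pow_le_pow_left₀ hd h 2
  rwa [Real.sq_sqrt hq] at this

theorem exp_le_exp_mul {N : ℕ} {q : ℝ} (hq : 0 < q) {a b : E N} (h : ‖a - b‖ ≤ √q) :
    Real.exp (-‖b‖ ^ 2 / (4 * q)) ≤ Real.exp (1 / 4) * Real.exp (-(‖a‖ ^ 2 / (8 * q))) := by
  rw [← Real.exp_add, Real.exp_le_exp]
  have h1 := norm_sq_le a b
  have h2 := sq_le_of_le_sqrt (norm_nonneg _) hq.le h
  have h3 : ‖a‖ ^ 2 / (8 * q) ≤ ‖b‖ ^ 2 / (4 * q) + 1 / 4 := by
    have h4 : ‖b‖ ^ 2 / (4 * q) + 1 / 4 = (2 * ‖b‖ ^ 2 + 2 * q) / (8 * q) := by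
      field_simp
      ring
    rw [h4]
    exact div_le_div_of_nonneg_right (by linarith) (by positivity)
  rw [neg_div]
  linarith

theorem exp_quarter : Real.exp (1 / 4) ≤ 3 / 2 := by
  have h1 : Real.exp (1 / 4) ^ 4 = Real.exp 1 := by
    rw [← Real.exp_nat_mul]
    norm_num
  by_contra hcon
  push Not at hcon
  have h2 : (3 / 2 : ℝ) ^ 4 < Real.exp (1 / 4) ^ 4 := pow_lt_pow_left₀ hcon (by norm_num) (by norm_num)
  rw [h1] at h2
  have h3 := Real.exp_one_lt_d9
  norm_num at h2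
  linarith

theorem hk_le_four {N : ℕ} {q : ℝ} (hq : 0 < q) {a b : E N} (h : ‖a - b‖ ≤ √q) :
    hk q b ≤ 2 * c4 N * hk (4 * q) a := by
  rw [hk_eq, hk_eq, pf_four N hq]
  have h1 := exp_le_exp_mul hq h
  have h2 : Real.exp (-(‖a‖ ^ 2 / (8 * q))) ≤ Real.exp (-‖a‖ ^ 2 / (4 * (4 * q))) := by
    rw [Real.exp_le_exp, neg_div, neg_le_neg_iff]
    exact div_le_div_of_nonneg_left (by positivity) (by positivity) (by linarith)
  have h3 : Real.exp (-‖b‖ ^ 2 / (4 * q)) ≤ 2 * Real.exp (-‖a‖ ^ 2 / (4 * (4 * q))) := by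
    refine h1.trans ?_
    have := exp_quarter
    exact mul_le_mul (by linarith) h2 (Real.exp_pos _).le (by norm_num)
  have h4 : 0 ≤ c4 N * pf N (4 * q) := mul_nonneg (by linarith [c4_ge N]) (pf_pos N (by positivity)).le
  calc c4 N * pf N (4 * q) * Real.exp (-‖b‖ ^ 2 / (4 * q))
      ≤ c4 N * pf N (4 * q) * (2 * Real.exp (-‖a‖ ^ 2 / (4 * (4 * q)))) :=
        mul_le_mul_of_nonneg_left h3 h4
    _ = _ := by ring

theorem hk_mono_time {N : ℕ} {τ σ : ℝ} (hτ : 0 < τ) (h1 : τ ≤ σ) (h2 : σ ≤ 4 * τ) (a : E N) :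
    hk σ a ≤ c4 N * hk (4 * τ) a := by
  rw [hk_eq, hk_eq]
  have h3 : pf N σ ≤ c4 N * pf N (4 * τ) := by
    rw [← pf_four N hτ]
    exact pf_anti N hτ h1
  have h4 : Real.exp (-‖a‖ ^ 2 / (4 * σ)) ≤ Real.exp (-‖a‖ ^ 2 / (4 * (4 * τ))) := by
    rw [Real.exp_le_exp, neg_div, neg_div, neg_le_neg_iff]
    exact div_le_div_of_nonneg_left (by positivity) (by linarith) (by linarith)
  rw [← mul_assoc]
  exact mul_le_mul h3 h4 (Real.exp_pos _).le
    (mul_nonneg (by linarith [c4_ge N]) (pf_pos N (by positivity)).le)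

theorem exp_diff {A B M : ℝ} (hA : Real.exp (-A) ≤ M) (hB : Real.exp (-B) ≤ M) :
    |Real.exp (-A) - Real.exp (-B)| ≤ |A - B| * M := by
  have hA0 := Real.exp_pos (-A)
  have hB0 := Real.exp_pos (-B)
  have h1 : Real.exp (-A) - Real.exp (-B) ≤ Real.exp (-A) * (B - A) := by
    have h2 := Real.add_one_le_exp (A - B)
    have h3 : Real.exp (-B) = Real.exp (-A) * Real.exp (A - B) := by
      rw [← Real.exp_add]
      congr 1
      ring
    rw [h3]
    nlinarith
  have h1' : Real.exp (-B) - Real.exp (-A) ≤ Real.exp (-B) * (A - B) := by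
    have h2 := Real.add_one_le_exp (B - A)
    have h3 : Real.exp (-A) = Real.exp (-B) * Real.exp (B - A) := by
      rw [← Real.exp_add]
      congr 1
      ring
    rw [h3]
    nlinarith
  rw [abs_le]
  have h4 : B - A ≤ |A - B| := by
    rw [abs_sub_comm]
    exact le_abs_self _
  have h5 : A - B ≤ |A - B| := le_abs_self _
  have h6 := abs_nonneg (A - B)
  constructor
  · have : Real.exp (-B) * (A - B) ≤ |A - B| * M := by
      calc Real.exp (-B) * (A - B) ≤ Real.exp (-B) * |A - B| :=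
            mul_le_mul_of_nonneg_left h5 hB0.le
        _ ≤ M * |A - B| := mul_le_mul_of_nonneg_right hB h6
        _ = _ := mul_comm _ _
    linarith
  · have : Real.exp (-A) * (B - A) ≤ |A - B| * M := by
      calc Real.exp (-A) * (B - A) ≤ Real.exp (-A) * |A - B| :=
            mul_le_mul_of_nonneg_left h4 hA0.le
        _ ≤ M * |A - B| := mul_le_mul_of_nonneg_right hA h6
        _ = _ := mul_comm _ _
    linarith

theorem hk_diff_near {N : ℕ} {q : ℝ} (hq : 0 < q) {a b : E N} (h : ‖a - b‖ ≤ √q) :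
    |hk q a - hk q b| ≤ ‖a - b‖ / √q * (3 * c4 N * hk (4 * q) a) := by
  have hsq : 0 < √q := Real.sqrt_pos.2 hq
  have hss : √q * √q = q := Real.mul_self_sqrt hq.le
  rw [hk_eq, hk_eq, hk_eq, ← mul_sub, abs_mul, abs_of_pos (pf_pos N hq), pf_four N hq]
  set M := Real.exp (1 / 4) * Real.exp (-(‖a‖ ^ 2 / (8 * q))) with hM
  have hA : Real.exp (-(‖a‖ ^ 2 / (4 * q))) ≤ M := by
    rw [← neg_div]
    have h0 : ‖a - a‖ ≤ √q := by rw [sub_self, norm_zero]; exact hsq.le
    exact exp_le_exp_mul hq h0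
  have hB : Real.exp (-(‖b‖ ^ 2 / (4 * q))) ≤ M := by
    rw [← neg_div]
    exact exp_le_exp_mul hq h
  have h1 := exp_diff hA hB
  have h2 : |‖a‖ ^ 2 / (4 * q) - ‖b‖ ^ 2 / (4 * q)| ≤
      ‖a - b‖ / √q * (‖a‖ / √q / 2 + 1 / 4) := by
    have h3 : |‖a‖ - ‖b‖| ≤ ‖a - b‖ := abs_norm_sub_norm_le a b
    have h4 : ‖b‖ ≤ ‖a‖ + √q := by
      have := norm_sub_norm_le b a
      rw [norm_sub_rev] at this
      linarith
    have h5 : ‖a‖ ^ 2 / (4 * q) - ‖b‖ ^ 2 / (4 * q) =
        (‖a‖ - ‖b‖) * (‖a‖ + ‖b‖) / (4 * q) := by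
      field_simp
      ring
    rw [h5, abs_div, abs_mul, abs_of_nonneg (add_nonneg (norm_nonneg a) (norm_nonneg b)),
      abs_of_pos (by positivity : 0 < 4 * q)]
    have h6 : ‖a - b‖ / √q * (‖a‖ / √q / 2 + 1 / 4) = ‖a - b‖ * (2 * ‖a‖ + √q) / (4 * q) := by
      have : ‖a - b‖ / √q * (‖a‖ / √q / 2 + 1 / 4) =
          ‖a - b‖ * (2 * ‖a‖ + √q) / (4 * (√q * √q)) := by
        field_simp
        ring
      rw [this, hss]
    rw [h6]
    refine div_le_div_of_nonneg_right ?_ (by positivity)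
    exact mul_le_mul h3 (by linarith) (add_nonneg (norm_nonneg a) (norm_nonneg b)) (norm_nonneg _)
  have h7 : (‖a‖ / √q / 2 + 1 / 4) * M ≤ 3 * Real.exp (-‖a‖ ^ 2 / (4 * (4 * q))) := by
    set v := ‖a‖ / √q with hv
    have hv2 : v ^ 2 = ‖a‖ ^ 2 / q := by
      rw [hv, div_pow, Real.sq_sqrt hq.le]
    have e1 : Real.exp (-(‖a‖ ^ 2 / (8 * q))) =
        Real.exp (-(v ^ 2 / 16)) * Real.exp (-(v ^ 2 / 16)) := by
      rw [← Real.exp_add, hv2]
      congr 1
      field_simp
      ring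
    have e2 : Real.exp (-‖a‖ ^ 2 / (4 * (4 * q))) = Real.exp (-(v ^ 2 / 16)) := by
      rw [hv2]
      congr 1
      field_simp
      ring
    rw [hM, e1, e2]
    have h8 : (v / 2 + 1 / 4) * Real.exp (-(v ^ 2 / 16)) ≤ 2 := by
      have h9 := Real.add_one_le_exp (v ^ 2 / 16)
      have h10 : v / 2 + 1 / 4 ≤ 2 * Real.exp (v ^ 2 / 16) := by nlinarith [sq_nonneg (v - 2)]
      rw [Real.exp_neg]
      have h11 := Real.exp_pos (v ^ 2 / 16)
      rw [← div_eq_mul_inv, div_le_iff₀ h11]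
      exact h10
    have h12 := exp_quarter
    have h13 := Real.exp_pos (1 / 4 : ℝ)
    have h14 := Real.exp_pos (-(v ^ 2 / 16))
    calc (v / 2 + 1 / 4) * (Real.exp (1 / 4) *
          (Real.exp (-(v ^ 2 / 16)) * Real.exp (-(v ^ 2 / 16))))
        = ((v / 2 + 1 / 4) * Real.exp (-(v ^ 2 / 16))) *
          (Real.exp (1 / 4) * Real.exp (-(v ^ 2 / 16))) := by ring
      _ ≤ 2 * (Real.exp (1 / 4) * Real.exp (-(v ^ 2 / 16))) :=
          mul_le_mul_of_nonneg_right h8 (by positivity)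
      _ ≤ 2 * (3 / 2 * Real.exp (-(v ^ 2 / 16))) := by
          refine mul_le_mul_of_nonneg_left ?_ (by norm_num)
          exact mul_le_mul_of_nonneg_right h12 h14.le
      _ = _ := by ring
  have h15 : |Real.exp (-‖a‖ ^ 2 / (4 * q)) - Real.exp (-‖b‖ ^ 2 / (4 * q))| ≤
      ‖a - b‖ / √q * (3 * Real.exp (-‖a‖ ^ 2 / (4 * (4 * q)))) := by
    rw [neg_div, neg_div]
    refine h1.trans ?_
    have hM0 : 0 ≤ M := by positivity
    calc |‖a‖ ^ 2 / (4 * q) - ‖b‖ ^ 2 / (4 * q)| * M
        ≤ (‖a - b‖ / √q * (‖a‖ / √q / 2 + 1 / 4)) * M := mul_le_mul_of_nonneg_right h2 hM0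
      _ = ‖a - b‖ / √q * ((‖a‖ / √q / 2 + 1 / 4) * M) := by ring
      _ ≤ _ := mul_le_mul_of_nonneg_left h7 (by positivity)
  have h16 : 0 ≤ c4 N * pf N (4 * q) :=
    mul_nonneg (by linarith [c4_ge N]) (pf_pos N (by positivity)).le
  calc c4 N * pf N (4 * q) * |Real.exp (-‖a‖ ^ 2 / (4 * q)) - Real.exp (-‖b‖ ^ 2 / (4 * q))|
      ≤ c4 N * pf N (4 * q) * (‖a - b‖ / √q * (3 * Real.exp (-‖a‖ ^ 2 / (4 * (4 * q))))) :=
        mul_le_mul_of_nonneg_left h15 h16
    _ = _ := by ring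

theorem hk_diff {N : ℕ} {q : ℝ} (hq : 0 < q) (a b : E N) :
    |hk q a - hk q b| ≤ ‖a - b‖ / √q * (3 * c4 N * hk (4 * q) a + hk q b) := by
  have hsq : 0 < √q := Real.sqrt_pos.2 hq
  have ha := hk_nonneg hq.le a
  have hb := hk_nonneg hq.le b
  have hd : 0 ≤ ‖a - b‖ / √q := by positivity
  rcases le_total ‖a - b‖ (√q) with h | h
  · refine (hk_diff_near hq h).trans ?_
    exact mul_le_mul_of_nonneg_left (by linarith) hd
  · have h1 : 1 ≤ ‖a - b‖ / √q := by rwa [le_div_iff₀ hsq, one_mul]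
    have h0 : ‖a - a‖ ≤ √q := by rw [sub_self, norm_zero]; exact hsq.le
    have h2 := hk_le_four hq h0
    have h3 : |hk q a - hk q b| ≤ hk q a + hk q b := by
      rw [abs_le]
      constructor <;> linarith
    have h4 : 0 ≤ c4 N * hk (4 * q) a :=
      mul_nonneg (by linarith [c4_ge N]) (hk_nonneg (by positivity) _)
    have h5 : hk q a + hk q b ≤ 3 * c4 N * hk (4 * q) a + hk q b := by nlinarith
    have h6 : 0 ≤ 3 * c4 N * hk (4 * q) a + hk q b := by nlinarith
    calc |hk q a - hk q b| ≤ 3 * c4 N * hk (4 * q) a + hk q b := h3.trans h5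
      _ ≤ ‖a - b‖ / √q * (3 * c4 N * hk (4 * q) a + hk q b) := le_mul_of_one_le_left h6 h1

/-- the integral of `(t - r)^{-1/2}` -/
theorem int_inv_sqrt (s t : ℝ) :
    IntervalIntegrable (fun r => (t - r) ^ (-(1 / 2) : ℝ)) volume s t ∧
      ∫ r in s..t, (t - r) ^ (-(1 / 2) : ℝ) = 2 * √(t - s) := by
  have h0 : IntervalIntegrable (fun q : ℝ => q ^ (-(1 / 2) : ℝ)) volume 0 (t - s) :=
    intervalIntegral.intervalIntegrable_rpow' (by norm_num)
  refine ⟨?_, ?_⟩
  · have h1 := h0.comp_sub_left t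
    simp only [sub_zero, sub_sub_cancel] at h1
    exact h1.symm
  · have h2 := intervalIntegral.integral_comp_sub_left (a := s) (b := t)
      (fun q : ℝ => q ^ (-(1 / 2) : ℝ)) t
    rw [h2, sub_self, integral_rpow (Or.inl (by norm_num)), Real.sqrt_eq_rpow]
    norm_num
    ring

theorem klx (hKE1 : T_KE1) (hKE2 : T_KE2) (hKBD : T_KBD) : T_KLX := by
  intro N K hK
  set c := c4 N with hc
  have hc1 : 1 ≤ c := c4_ge N
  have hE : 1 ≤ Real.exp K := Real.one_le_exp hK.le
  refine ⟨3 * c + 2 * (K * Real.exp K * (3 * c * c + 2 * c)), ?_, ?_⟩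
  · have : 0 ≤ K * Real.exp K * (3 * c * c + 2 * c) := by positivity
    linarith
  intro V hV s t hst hts x x' y hxx
  have hτ : 0 < t - s := by linarith
  set δ := ‖x - x'‖ with hδ
  have hδ0 : 0 ≤ δ := norm_nonneg _
  have hsq : 0 < √(t - s) := Real.sqrt_pos.2 hτ
  set Hk := hk (4 * (t - s)) (x - y) with hHk
  have hHk0 : 0 ≤ Hk := hk_nonneg (by linarith) _
  have hab : ‖(x - y) - (x' - y)‖ = δ := by rw [sub_sub_sub_cancel_right]
  rw [hKE2 N K V hV s t hst x y, hKE2 N K V hV s t hst x' y]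
  -- bounds of the kernel
  have hgkb : ∀ r, s < r → r ≤ t → ∀ z, |gk V r z s y| ≤ Real.exp K * hk (r - s) (z - y) := by
    intro r hr hrt z
    have h1 := hKBD N K V hV s r hr z y
    have h2 : 0 ≤ gk V r z s y :=
      le_trans (mul_nonneg (Real.exp_pos _).le (hk_nonneg (by linarith) _)) h1.1
    rw [abs_of_nonneg h2]
    refine h1.2.trans (mul_le_mul_of_nonneg_right ?_ (hk_nonneg (by linarith) _))
    rw [Real.exp_le_exp]
    nlinarith [hV.K0]
  have hmg : Measurable (fun p : ℝ × E N => if s < p.1 then gk V p.1 p.2 s y else 0) := by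
    have := (hKE1 N K V hV).2.2.2 s
    exact this.comp ((measurable_fst.prodMk measurable_snd).prodMk measurable_const)
  have hgm : ∀ r, s < r → Measurable (fun z => gk V r z s y) := by
    intro r hr
    have := hmg.comp (measurable_const.prodMk measurable_id : Measurable fun z : E N => (r, z))
    have he : ((fun p : ℝ × E N => if s < p.1 then gk V p.1 p.2 s y else 0) ∘ fun a => (r, a)) =
        fun z => gk V r z s y := by
      ext z
      simp [hr]
    rwa [he] at this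
  -- measurability and integrability of the outer integrand
  have hout : ∀ x0 : E N, IntervalIntegrable
      (fun r => ∫ z, hk (t - r) (x0 - z) * (V r z * gk V r z s y)) volume s t := by
    intro x0
    rw [intervalIntegrable_iff_integrableOn_Ioc_of_le hst.le]
    have hm : Measurable (fun r : ℝ => ∫ z, hk (t - r) (x0 - z) *
        (V r z * (if s < r then gk V r z s y else 0))) := by
      have m1 : Measurable (fun p : ℝ × E N => hk (t - p.1) (x0 - p.2)) :=
        (measurable_hk_uncurry (V := E N)).comp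
          ((measurable_const.sub measurable_fst).prodMk (measurable_const.sub measurable_snd))
      have m2 := m1.mul (hV.meas.mul hmg)
      exact (m2.stronglyMeasurable.integral_prod_right).measurable
    have hcong : ∀ r ∈ Ioc s t, (∫ z, hk (t - r) (x0 - z) *
        (V r z * (if s < r then gk V r z s y else 0))) =
        ∫ z, hk (t - r) (x0 - z) * (V r z * gk V r z s y) := by
      intro r hr
      simp [hr.1]
    have hm' : AEStronglyMeasurable (fun r => ∫ z, hk (t - r) (x0 - z) * (V r z * gk V r z s y))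
        (volume.restrict (Ioc s t)) :=
      (hm.aestronglyMeasurable).congr
        ((ae_restrict_mem measurableSet_Ioc).mono fun r hr => hcong r hr)
    have hbd : ∀ᵐ r ∂(volume.restrict (Ioc s t)),
        ‖∫ z, hk (t - r) (x0 - z) * (V r z * gk V r z s y)‖ ≤
          K * Real.exp K * hk (t - s) (x0 - y) := by
      rw [ae_restrict_iff' measurableSet_Ioc]
      filter_upwards [compl_mem_ae_iff.2 (measure_singleton t)] with r hr hr'
      have hrt : r < t := lt_of_le_of_ne hr'.2 hr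
      exact Pool.Agent.H48.RF.inner_le hV hr'.1 hrt x0 y (hgkb r hr'.1 hr'.2)
    exact Integrable.mono' (integrable_const _) hm' hbd
  have hmain : |(∫ r in s..t, ∫ z, hk (t - r) (x - z) * (V r z * gk V r z s y)) -
      ∫ r in s..t, ∫ z, hk (t - r) (x' - z) * (V r z * gk V r z s y)| ≤
      2 * √(t - s) * (δ * (K * Real.exp K * (3 * c * c + 2 * c) * Hk)) := by
    rw [← intervalIntegral.integral_sub (hout x) (hout x')]
    have hI := int_inv_sqrt s t
    have hbd : ∀ᵐ r ∂volume, r ∈ Ioc s t →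
        ‖(∫ z, hk (t - r) (x - z) * (V r z * gk V r z s y)) -
          ∫ z, hk (t - r) (x' - z) * (V r z * gk V r z s y)‖ ≤
        (t - r) ^ (-(1 / 2) : ℝ) * (δ * (K * Real.exp K * (3 * c * c + 2 * c) * Hk)) := by
      filter_upwards [compl_mem_ae_iff.2 (measure_singleton t)] with r hr hr'
      have hrt : r < t := lt_of_le_of_ne hr'.2 hr
      have hsr := hr'.1
      have hq : 0 < t - r := by linarith
      have hrs : 0 < r - s := by linarith
      have i1 := Pool.Agent.H48.RF.inner_int hV hsr hrt x y (hgm r hsr) (hgkb r hsr hr'.2)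
      have i2 := Pool.Agent.H48.RF.inner_int hV hsr hrt x' y (hgm r hsr) (hgkb r hsr hr'.2)
      rw [← integral_sub i1 i2]
      have j1 : Integrable (fun z : E N => hk (4 * (t - r)) (x - z) * hk (r - s) (z - y)) := by
        have := Pool.Agent.H48.RF.integrable_hkhk hsr (show r < r + 4 * (t - r) by linarith) x y
        rwa [show r + 4 * (t - r) - r = 4 * (t - r) by ring] at this
      have j2 := Pool.Agent.H48.RF.integrable_hkhk hsr hrt x' y
      have hpt : ∀ z, ‖hk (t - r) (x - z) * (V r z * gk V r z s y) -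
          hk (t - r) (x' - z) * (V r z * gk V r z s y)‖ ≤
          δ / √(t - r) * (K * Real.exp K) *
            (3 * c * (hk (4 * (t - r)) (x - z) * hk (r - s) (z - y)) +
              hk (t - r) (x' - z) * hk (r - s) (z - y)) := by
        intro z
        rw [← sub_mul, norm_mul, norm_mul, Real.norm_eq_abs, Real.norm_eq_abs, Real.norm_eq_abs]
        have k1 := hk_diff hq (x - z) (x' - z)
        rw [show x - z - (x' - z) = x - x' by abel] at k1
        have k2 : |V r z| * |gk V r z s y| ≤ K * (Real.exp K * hk (r - s) (z - y)) :=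
          mul_le_mul (hV.bdd r z) (hgkb r hsr hr'.2 z) (abs_nonneg _) hV.K0.le
        have k3 : 0 ≤ δ / √(t - r) * (3 * c * hk (4 * (t - r)) (x - z) + hk (t - r) (x' - z)) :=
          (abs_nonneg _).trans k1
        calc _ ≤ (δ / √(t - r) * (3 * c * hk (4 * (t - r)) (x - z) + hk (t - r) (x' - z))) *
              (K * (Real.exp K * hk (r - s) (z - y))) :=
              mul_le_mul k1 k2 (mul_nonneg (abs_nonneg _) (abs_nonneg _)) k3
          _ = _ := by ring
      have hint : Integrable (fun z => δ / √(t - r) * (K * Real.exp K) *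
            (3 * c * (hk (4 * (t - r)) (x - z) * hk (r - s) (z - y)) +
              hk (t - r) (x' - z) * hk (r - s) (z - y))) :=
        ((j1.const_mul (3 * c)).add j2).const_mul _
      refine (norm_integral_le_of_norm_le hint (Filter.Eventually.of_forall hpt)).trans ?_
      rw [integral_const_mul, integral_add (j1.const_mul (3 * c)) j2, integral_const_mul,
        semigroup_hk (by linarith) hrs, semigroup_hk hq hrs]
      have l1 : hk (4 * (t - r) + (r - s)) (x - y) ≤ c * Hk :=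
        hk_mono_time hτ (by linarith) (by linarith) _
      have l2 : hk (t - r + (r - s)) (x' - y) ≤ 2 * c * Hk := by
        rw [show t - r + (r - s) = t - s by ring]
        refine hk_le_four hτ ?_
        rw [hab]
        exact hxx
      have l3 : (t - r) ^ (-(1 / 2) : ℝ) = 1 / √(t - r) := by
        rw [Real.rpow_neg hq.le, Real.sqrt_eq_rpow, one_div ((t - r) ^ (1 / 2 : ℝ))]
      rw [l3]
      have l4 : 0 ≤ δ / √(t - r) * (K * Real.exp K) := by positivity
      calc δ / √(t - r) * (K * Real.exp K) *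
            (3 * c * hk (4 * (t - r) + (r - s)) (x - y) + hk (t - r + (r - s)) (x' - y))
          ≤ δ / √(t - r) * (K * Real.exp K) * (3 * c * (c * Hk) + 2 * c * Hk) := by
            refine mul_le_mul_of_nonneg_left (add_le_add ?_ l2) l4
            exact mul_le_mul_of_nonneg_left l1 (by linarith)
        _ = _ := by ring
    have h1 := intervalIntegral.norm_integral_le_of_norm_le hst.le hbd (hI.1.mul_const _)
    rw [intervalIntegral.integral_mul_const, hI.2, Real.norm_eq_abs] at h1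
    exact h1
  have hfirst : |hk (t - s) (x - y) - hk (t - s) (x' - y)| ≤ δ / √(t - s) * (3 * c * Hk) := by
    have := hk_diff_near hτ (a := x - y) (b := x' - y) (by rw [hab]; exact hxx)
    rwa [hab] at this
  have hsqle : √(t - s) ≤ 1 / √(t - s) := by
    rw [le_div_iff₀ hsq, Real.mul_self_sqrt hτ.le]
    linarith
  have hlast : 2 * √(t - s) * (δ * (K * Real.exp K * (3 * c * c + 2 * c) * Hk)) ≤
      δ / √(t - s) * (2 * (K * Real.exp K * (3 * c * c + 2 * c)) * Hk) := by
    have h1 : 0 ≤ δ * (2 * (K * Real.exp K * (3 * c * c + 2 * c)) * Hk) := by positivity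
    calc 2 * √(t - s) * (δ * (K * Real.exp K * (3 * c * c + 2 * c) * Hk))
        = √(t - s) * (δ * (2 * (K * Real.exp K * (3 * c * c + 2 * c)) * Hk)) := by ring
      _ ≤ 1 / √(t - s) * (δ * (2 * (K * Real.exp K * (3 * c * c + 2 * c)) * Hk)) :=
          mul_le_mul_of_nonneg_right hsqle h1
      _ = _ := by ring
  rw [add_sub_add_comm]
  refine (abs_add_le _ _).trans ?_
  calc _ ≤ δ / √(t - s) * (3 * c * Hk) +
        δ / √(t - s) * (2 * (K * Real.exp K * (3 * c * c + 2 * c)) * Hk) :=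
        add_le_add hfirst (hmain.trans hlast)
    _ = _ := by ring

end Pool.Agent.H21.RF.KLX
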